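import Pool.Agent.H.MP_81ecdf_nt.Sums

/-!
Disproof of the statement that every quadratic irrational over `F_q(t)` exhibits full maximal
escape of mass with respect to `{P ^ k}`: for `q = p = 2`, `P = t + 1` and
`Θ = (t + 1) ∑_{i ≥ 0} (t^{-2^i} + t^{-3·2^i})` the ratios satisfy `limsup_k e_{k,n} ≤ 9/10` for
every `n ≥ 3`.
-/

open Polynomial Filter Topology
open Pool.Agent.H.MP_81ecdf_nt

namespace Pool.Agent.Results.MP_81ecdf_nt.Disproof

theorem irreducible_PP : Irreducible (X + 1 : (ZMod 2)[X]) :=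
  irreducible_of_degree_eq_one (degree_X_add_C 1)

theorem al_succ (k : ℕ) :
    theta * polyEmb F2 PP * polyEmb (ZMod 2) (X + 1) ^ k = al (k + 1) := by
  show theta * polyEmb F2 PP * polyEmb F2 PP ^ k = theta * polyEmb F2 PP ^ (k + 1)
  ring

theorem quadratic : IsQuadraticIrrational (theta * polyEmb F2 PP) := by
  refine ⟨?_, X ^ 3, X ^ 3 * PP, PP ^ 2 * (X ^ 2 + 1), pow_ne_zero 3 X_ne_zero, ?_⟩
  · have h := irr_al 1
    unfold al at h
    rw [pow_one] at h
    exact h
  · have h := theta_sq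
    have h2 := add_self_K (polyEmb F2 PP ^ 2 * polyEmb F2 (X ^ 2 + 1))
    show polyEmb F2 (X ^ 3) * (theta * polyEmb F2 PP) ^ 2 + polyEmb F2 (X ^ 3 * PP) * (theta * polyEmb F2 PP) +
      polyEmb F2 (PP ^ 2 * (X ^ 2 + 1)) = 0
    simp only [map_mul, map_add, map_pow, map_one] at h h2 ⊢
    linear_combination (polyEmb F2 PP ^ 2) * h + h2

theorem limsup_shift (n : ℕ) (hn : 3 ≤ n) :
    limsup (fun k : ℕ => escapeRatio (theta * polyEmb F2 PP * polyEmb (ZMod 2) (X + 1) ^ k) n) atTop
      ≤ 9 / 10 := by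
  have h : (fun k : ℕ => escapeRatio (theta * polyEmb F2 PP * polyEmb (ZMod 2) (X + 1) ^ k) n) =
      fun k : ℕ => escapeRatio (al (k + 1)) n := by
    funext k
    rw [al_succ]
  rw [h, limsup_nat_add (fun k : ℕ => escapeRatio (al k) n) 1]
  exact limsup_le n hn

/-- Over `F_2`, with `P = t + 1`, there is a quadratic irrational `Θ` that does not exhibit full
maximal escape of mass with respect to `{P ^ k}`; indeed `limsup_k e_{k,n} ≤ 9/10` for `n ≥ 3`.
The third conjunct says that all the continued fraction expansions involved are eventually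
periodic, so that the ratios `e_{k,n}` are those of the problem. -/
theorem result :
    Irreducible (X + 1 : (ZMod 2)[X]) ∧
    ∃ Θ : LaurentSeries (ZMod 2), IsQuadraticIrrational Θ ∧
      (∀ k : ℕ, ∃ l : ℕ,
        IsEventualPeriod (partialQuot (Θ * polyEmb (ZMod 2) (X + 1) ^ k)) l) ∧
      (∀ n : ℕ, 3 ≤ n →
        limsup (fun k : ℕ => escapeRatio (Θ * polyEmb (ZMod 2) (X + 1) ^ k) n) atTop ≤ 9 / 10) ∧
      ¬ FullMaximalEscape (X + 1) Θ := by
  refine ⟨irreducible_PP, theta * polyEmb F2 PP, quadratic, ?_, limsup_shift, ?_⟩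
  · intro k
    rw [al_succ]
    obtain ⟨M, hM, -, hper⟩ := period_exists (k + 1) (k + 1) (by omega) (by
      have := Nat.lt_two_pow_self (n := k + 1)
      omega)
    refine ⟨M, by omega, 1, fun i hi => ?_⟩
    obtain ⟨n, rfl⟩ := Nat.exists_eq_add_of_le' hi
    unfold partialQuot
    rw [hper n]
  · intro h
    have h1 : (1 : ℝ) ≤ 9 / 10 := by
      apply le_of_tendsto h
      filter_upwards [eventually_ge_atTop 3] with n hn
      exact limsup_shift n hn
    norm_num at h1

/-- The universally quantified statement of the problem is false. -/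
theorem not_universal :
    ¬ ∀ (p : ℕ) [Fact p.Prime] (F : Type) [Field F] [Finite F] [Algebra (ZMod p) F]
      (P : (ZMod p)[X]), Irreducible P → ∀ Θ : LaurentSeries F, IsQuadraticIrrational Θ →
        FullMaximalEscape (P.map (algebraMap (ZMod p) F)) Θ := by
  intro h
  obtain ⟨hP, Θ, hΘ, -, -, hn⟩ := result
  have := h 2 (ZMod 2) (X + 1) hP Θ hΘ
  rw [show algebraMap (ZMod 2) (ZMod 2) = RingHom.id _ from rfl, Polynomial.map_id] at this
  exact hn this

end Pool.Agent.Results.MP_81ecdf_nt.Disproof
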